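import Pool.Agent.Y186.HL.Nec

/-!
# Hankel operators of gap series from `ℓ^p A` to `ℓ^p`

Let `1 < p < ∞`, `p'` the conjugate exponent and `f_c = ∑ c_e z^{4^e}` with real `c`. The Hankel
operator of `f_c` acts from `ℓ^p A` to `ℓ^p` if and only if `c ∈ ℓ^r`, `r = min(p, p')`. If
`p ≠ 2`, the set of the `c` in the Banach space `ℓ^r` for which `f_c` is the Riesz projection of a
multiplier of `ℓ^p` is meagre. So the multiplier description fails for a gap series, and even for
generic ones.

The proof of the second part: the multipliers with a given bound form a compact set for pointwise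
convergence of the coefficients, so the symbols of multipliers with a given bound form a closed
set, which has no interior point because of the earlier theorem `HankelLpDisproof`.
-/

open Filter Topology
open scoped ENNReal NNReal
open Pool.Agent.H667R2.HankelLp

namespace Pool.Agent.Results.MP_03b314_an.GapSymbols

theorem result (p : ℝ≥0∞) (hp1 : 1 < p) (hpt : p ≠ ∞) (r : ℝ≥0∞) [Fact (1 ≤ r)]
    (hr : r = ENNReal.ofReal (min p.toReal (p.toReal / (p.toReal - 1)))) :
    (∀ c : ℕ → ℝ, HankelActs p (sym c) ↔ Memℓp c r) ∧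
    (p ≠ 2 →
      IsMeagre {c : lp (fun _ : ℕ => ℝ) r | ∃ m : ℤ → ℂ, IsMultiplier p m ∧ rieszProj m = sym (fun e => c e)} ∧
      ∃ c : lp (fun _ : ℕ => ℝ) r, (∀ n < 0, sym (fun e => c e) n = 0) ∧
        Summable (fun n => ‖sym (fun e => c e) n‖ ^ 2) ∧ HankelActs p (sym (fun e => c e)) ∧
        ¬ ∃ m : ℤ → ℂ, IsMultiplier p m ∧ rieszProj m = sym (fun e => c e)) := by
  refine ⟨fun c => ?_, fun hp2 => ?_⟩
  · rw [hr]
    exact Pool.Agent.Y186.HL.acts_iff p hp1 hpt c
  · obtain ⟨h1, h2, c, h3, h4⟩ := Pool.Agent.Y186.HL.main p r hp1 hpt hp2 hr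
    exact ⟨h2, c, (h1 c).1, (h1 c).2.1, h3, h4⟩

end Pool.Agent.Results.MP_03b314_an.GapSymbols
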